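import Pool.Agent.Run7.h897.QU.Iface

/-!
# Upper bound of the mass gap, piece U5: the choice of the parameters
-/

open Pool.Agent.Run7.h897.QU

namespace Run7.h182.QU

theorem omega_ex (x : ℝ) (hx : 0 < x) : ∃ ω : ℝ, 0 < ω ∧ 2 * Real.cosh ω = 2 + x := by
  refine ⟨2 * Real.arsinh (Real.sqrt x / 2), ?_, ?_⟩
  · have : 0 < Real.arsinh (Real.sqrt x / 2) := Real.arsinh_pos_iff.2 (by positivity)
    linarith
  · rw [Real.cosh_two_mul, Real.cosh_sq, Real.sinh_arsinh]
    have := Real.sq_sqrt hx.le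
    linarith [this, div_pow (Real.sqrt x) 2 2]

theorem cosh_low (s : ℝ) (hs : 0 ≤ s) : 2 + s ^ 2 ≤ 2 * Real.cosh s := by
  have h : Real.cosh s = Real.cosh (2 * (s / 2)) := by congr 1; ring
  rw [h, Real.cosh_two_mul, Real.cosh_sq]
  have h1 : s / 2 ≤ Real.sinh (s / 2) := Real.self_le_sinh_iff.2 (by linarith)
  nlinarith [h1]

theorem omega_le (ω x0 x1 A B : ℝ) (hω : 0 < ω) (hA : 0 ≤ A) (hB : 0 ≤ B) (h0 : x0 ≤ A ^ 2)
    (h1 : x1 ≤ B ^ 2) (h : 2 * Real.cosh ω = 2 + x0 + x1) : ω ≤ A + B := by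
  have h2 := cosh_low (A + B) (by linarith)
  have h3 : Real.cosh ω ≤ Real.cosh (A + B) := by nlinarith [mul_nonneg hA hB]
  have h4 := Real.cosh_le_cosh.1 h3
  rwa [abs_of_pos hω, abs_of_nonneg (by linarith)] at h4

theorem two_sub_cos_le (x : ℝ) : 2 - 2 * Real.cos x ≤ x ^ 2 := by
  have := Real.one_sub_sq_div_two_le_cos (x := x)
  linarith

theorem two_sub_cos_ge (x : ℝ) (hx : |x| ≤ Real.pi) :
    4 / Real.pi ^ 2 * x ^ 2 ≤ 2 - 2 * Real.cos x := by
  have h1 := Real.cos_le_one_sub_mul_cos_sq hx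
  have h2 : 4 / Real.pi ^ 2 * x ^ 2 = 2 * (2 / Real.pi ^ 2 * x ^ 2) := by ring
  linarith

theorem log_sqrt_le (β : ℝ) (hβ : 1 ≤ β) :
    0 ≤ (1 + Real.log β) / Real.sqrt β ∧
      (1 + Real.log β) / Real.sqrt β ≤ 5 / Real.sqrt (Real.sqrt β) := by
  set b := Real.sqrt (Real.sqrt β) with hb
  have hb1 : 1 ≤ b := by
    rw [hb, Real.one_le_sqrt, Real.one_le_sqrt]
    exact hβ
  have hb2 : Real.sqrt β = b ^ 2 := (Real.sq_sqrt (Real.sqrt_nonneg β)).symm
  have hlog : Real.log β ≤ 4 * b := by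
    have h1 : Real.log β = 4 * Real.log b := by
      rw [hb, Real.log_sqrt (Real.sqrt_nonneg _), Real.log_sqrt (by linarith)]
      ring
    rw [h1]
    have := Real.log_le_self (x := b) (by linarith)
    linarith
  have hl0 : 0 ≤ Real.log β := Real.log_nonneg hβ
  refine ⟨by positivity, ?_⟩
  rw [hb2, div_le_div_iff₀ (by positivity) (by linarith)]
  nlinarith

theorem le_root4 (β x : ℝ) (hx : 0 ≤ x) (h : x ^ 4 ≤ β) : x ≤ Real.sqrt (Real.sqrt β) := by
  have hβ : 0 ≤ β := le_trans (by positivity) h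
  rw [Real.le_sqrt hx (Real.sqrt_nonneg _), Real.le_sqrt (by positivity) hβ]
  calc (x ^ 2) ^ 2 = x ^ 4 := by ring
    _ ≤ β := h

theorem t_U5 : S_U5 := by
  intro N hN m' C hm' hC
  have hN1 : (1 : ℝ) ≤ N := by exact_mod_cast (by omega : 1 ≤ N)
  have hN2 : (2 : ℝ) ≤ N := by exact_mod_cast hN
  have hπ := Real.pi_pos
  set M : ℝ := 2 * Real.pi / N with hM
  have hM0 : 0 < M := by positivity
  have hMπ : M ≤ Real.pi := by
    rw [hM, div_le_iff₀ (by linarith)]
    have := mul_le_mul_of_nonneg_left hN2 hπ.le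
    linarith
  set g : ℝ := m' - M with hg
  have hg0 : 0 < g := by linarith
  obtain ⟨y0, hy0⟩ := exists_nat_gt (Real.pi / g)
  have hy0' : 1 ≤ y0 + 1 := by omega
  obtain ⟨y, hy⟩ : ∃ y, y = y0 + 1 := ⟨_, rfl⟩
  have hy1 : (1 : ℝ) ≤ y := by exact_mod_cast (by omega : 1 ≤ y)
  have hyg : Real.pi / (2 * y) < g / 2 := by
    have h1 : Real.pi / g < y := by
      refine hy0.trans ?_
      exact_mod_cast (by omega : y0 < y)
    rw [div_lt_iff₀ hg0] at h1
    rw [div_lt_iff₀ (by linarith)]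
    linarith
  set B : ℝ := Real.pi / (2 * y) with hB
  have hB0 : 0 < B := by positivity
  set M1 : ℝ := M + B with hM1
  set d : ℝ := m' - M1 with hd
  have hd0 : 0 < d := by
    rw [hd, hM1]
    linarith
  have hM10 : 0 < M1 := by positivity
  obtain ⟨q, hq⟩ := exists_nat_ge (6 * M1 / d)
  set κ : ℝ := 1 / (96 * N ^ 5 * y ^ 2) with hκ
  have hκ0 : 0 < κ := by positivity
  set K0 : ℝ := 5 * C * y * N ^ 2 / 16 with hK0
  have hK00 : 0 < K0 := by positivity
  obtain ⟨l₀, hl₀⟩ := exists_nat_gt (M1 + 4 * Real.exp (2 * m') / κ + K0 +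
    4 * K0 * Real.exp (2 * M1) / κ)
  refine ⟨4 * (q + 12), l₀ + 2, y, by omega, by omega, ?_⟩
  intro l hl β hβ c hc1 hcN x0 hx0
  have hl' : (l₀ : ℝ) + 2 ≤ l := by exact_mod_cast hl
  have e1 : 0 < 4 * Real.exp (2 * m') / κ := by positivity
  have e2 : 0 < 4 * K0 * Real.exp (2 * M1) / κ := by positivity
  have hl2 : (2 : ℝ) ≤ l := by linarith
  have hlM : M1 ≤ l := by linarith
  have hlE : 4 * Real.exp (2 * m') / κ ≤ l := by linarith
  have hlK : K0 ≤ l := by linarith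
  have hlF : 4 * K0 * Real.exp (2 * M1) / κ < l := by linarith
  have hl0 : (0 : ℝ) < l := by linarith
  have hl1 : (1 : ℝ) ≤ l := by linarith
  have hβ1 : 1 ≤ β := le_trans (one_le_pow₀ hl1) hβ
  refine ⟨hβ1, ?_, ?_⟩
  · calc M ≤ Real.pi := hMπ
      _ = Real.pi / 2 * 2 := by ring
      _ ≤ Real.pi / 2 * l := mul_le_mul_of_nonneg_left hl2 (by linarith)
  have hx0' : x0 = 2 - 2 * Real.cos (M / l) := hx0
  have hMl : 0 < M / l := by positivity
  have hx0low : 16 / (N ^ 2 * l ^ 2) ≤ x0 := by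
    have h1 : |M / l| ≤ Real.pi := by
      rw [abs_of_pos hMl]
      exact (div_le_self hM0.le hl1).trans hMπ
    have h2 := two_sub_cos_ge (M / l) h1
    rw [hx0']
    refine le_trans (le_of_eq ?_) h2
    rw [hM]
    field_simp
    ring
  have hx0pos : 0 < x0 := lt_of_lt_of_le (by positivity) hx0low
  have hx0up : x0 ≤ (M / l) ^ 2 := by
    rw [hx0']
    exact two_sub_cos_le _
  set x1 : ℝ := 2 - 2 * Real.cos (Real.pi / (2 * (y * l) : ℕ)) with hx1
  have hx1up : x1 ≤ (B / l) ^ 2 := by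
    refine (two_sub_cos_le _).trans (le_of_eq ?_)
    congr 1
    rw [hB]
    push_cast
    field_simp
  have hx1nn : 0 ≤ x1 := by
    rw [hx1]
    linarith [Real.cos_le_one (Real.pi / (2 * (y * l) : ℕ))]
  obtain ⟨ω, hω0, hω⟩ := omega_ex (x0 + x1) (by linarith)
  have hωle : ω ≤ M1 / l := by
    have := omega_le ω x0 x1 (M / l) (B / l) hω0 hMl.le (by positivity) hx0up hx1up (by linarith)
    rwa [← add_div] at this
  set a : ℝ := 1 / (N ^ 3 * l ^ 3 * y) with ha
  have ha0 : 0 < a := by positivity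
  set D : ℝ := C * l ^ 4 * (1 + Real.log β) / Real.sqrt β * ((y * l : ℕ) / x0) with hD
  obtain ⟨hL0, hL1⟩ := log_sqrt_le β hβ1
  set b := Real.sqrt (Real.sqrt β) with hb
  have hbl : (l : ℝ) ^ (q + 12) ≤ b := by
    refine le_root4 β _ (by positivity) ?_
    rw [← pow_mul, mul_comm]
    exact hβ
  have hbpos : 0 < b := lt_of_lt_of_le (by positivity) hbl
  have hD0 : 0 ≤ D := by
    have : D = C * l ^ 4 * ((1 + Real.log β) / Real.sqrt β) * ((y * l : ℕ) / x0) := by
      rw [hD]; ring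
    rw [this]
    positivity
  have hD1 : D ≤ K0 / l ^ (q + 5) := by
    have h1 : D = C * l ^ 4 * ((1 + Real.log β) / Real.sqrt β) * ((y * l : ℕ) / x0) := by
      rw [hD]; ring
    have h2 : ((y * l : ℕ) : ℝ) / x0 ≤ y * l * (N ^ 2 * l ^ 2 / 16) := by
      rw [div_le_iff₀ hx0pos]
      have h3 : (y * l * (N ^ 2 * l ^ 2 / 16) : ℝ) * (16 / (N ^ 2 * l ^ 2)) ≤
          y * l * (N ^ 2 * l ^ 2 / 16) * x0 :=
        mul_le_mul_of_nonneg_left hx0low (by positivity)
      refine le_trans (le_of_eq ?_) h3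
      push_cast
      field_simp
    rw [h1]
    calc C * l ^ 4 * ((1 + Real.log β) / Real.sqrt β) * ((y * l : ℕ) / x0)
        ≤ C * l ^ 4 * (5 / b) * (y * l * (N ^ 2 * l ^ 2 / 16)) := by
          gcongr
      _ = K0 * l ^ 7 / b := by
          rw [hK0]; ring
      _ ≤ K0 * l ^ 7 / l ^ (q + 12) := by gcongr
      _ = K0 / l ^ (q + 5) := by
          rw [div_eq_div_iff (by positivity) (by positivity)]
          ring
  have hlq : (l : ℝ) ≤ l ^ (q + 5) := le_self_pow₀ hl1 (by omega)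
  have hD2 : D ≤ 1 := by
    refine hD1.trans ?_
    rw [div_le_one (by positivity)]
    exact hlK.trans hlq
  have hc1' : (1 : ℝ) ≤ c := by exact_mod_cast hc1
  have hcN' : (c : ℝ) ≤ N := by exact_mod_cast hcN.le
  refine ⟨ω, a, D, hω0, by linarith, ha0, ?_, ?_, rfl, hD0, hD2, ?_⟩
  · rw [ha, div_le_one (by positivity)]
    calc (1 : ℝ) = 1 * 1 * 1 := by norm_num
      _ ≤ N ^ 3 * l ^ 3 * y := by
          gcongr
          · exact one_le_pow₀ hN1
          · exact one_le_pow₀ hl1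
  · refine le_trans ?_ hx0low
    calc (N : ℝ) * c ^ 2 * l ^ 2 * a ^ 2 * (y * l : ℕ)
        ≤ (N : ℝ) * N ^ 2 * l ^ 2 * a ^ 2 * (y * l : ℕ) := by gcongr
      _ = 1 / ((N : ℝ) ^ 2 * (l : ℝ) ^ 2) * (1 / ((N : ℝ) * l * y)) := by
          rw [ha]
          push_cast
          field_simp
      _ ≤ 16 / ((N : ℝ) ^ 2 * (l : ℝ) ^ 2) := by
          have h5 : (1 : ℝ) / ((N : ℝ) * l * y) ≤ 1 := by
            rw [div_le_one (by positivity)]
            calc (1 : ℝ) = 1 * 1 * 1 := by norm_num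
              _ ≤ (N : ℝ) * l * y := by gcongr
          calc (1 : ℝ) / ((N : ℝ) ^ 2 * (l : ℝ) ^ 2) * (1 / ((N : ℝ) * l * y))
              ≤ 1 / ((N : ℝ) ^ 2 * (l : ℝ) ^ 2) * 1 := by gcongr
            _ ≤ 16 / ((N : ℝ) ^ 2 * (l : ℝ) ^ 2) := by
                rw [mul_one]
                gcongr
                norm_num
  -- the choice of `r`
  set L := Real.log l with hL
  have hLpos : 0 < L := Real.log_pos (by linarith)
  set s := ⌈3 * L / d⌉₊ with hs
  have hs1 : 1 ≤ s := Nat.one_le_ceil_iff.2 (by positivity)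
  have hs2 : 3 * L / d ≤ s := Nat.le_ceil _
  have hs3 : (s : ℝ) < 3 * L / d + 1 := Nat.ceil_lt_add_one (by positivity)
  have hl1n : 1 ≤ l := by omega
  refine ⟨l * s, Nat.mul_pos (by omega) (by omega), ?_⟩
  set E1 : ℝ := Real.exp (-(2 * s * M1)) with hE1
  have hE10 : 0 < E1 := Real.exp_pos _
  have hlexp : ∀ n : ℕ, Real.exp (n * L) = (l : ℝ) ^ n := by
    intro n
    rw [Real.exp_nat_mul, hL, Real.exp_log hl0]
  -- first term
  have t1 : 2 * D < κ / (2 * l ^ 4) * E1 := by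
    have h1 : Real.exp (-(2 * M1)) / l ^ q ≤ E1 := by
      have h2 : Real.exp (-(2 * M1)) / l ^ q = Real.exp (-(2 * M1) - q * L) := by
        rw [Real.exp_sub, hlexp]
      rw [h2, hE1]
      apply Real.exp_le_exp.2
      have h3 : (s : ℝ) * M1 ≤ (3 * L / d + 1) * M1 :=
        mul_le_mul_of_nonneg_right hs3.le hM10.le
      have h4 : 6 * M1 / d * L ≤ q * L := mul_le_mul_of_nonneg_right hq hLpos.le
      have h5 : 2 * ((3 * L / d + 1) * M1) = 6 * M1 / d * L + 2 * M1 := by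
        field_simp
        ring
      linarith
    have h6 : 2 * D ≤ 2 * K0 / l ^ (q + 5) := by
      rw [mul_div_assoc]
      linarith
    refine lt_of_le_of_lt h6 ?_
    refine lt_of_lt_of_le ?_ (mul_le_mul_of_nonneg_left h1 (by positivity))
    have h7 : 4 * K0 * Real.exp (2 * M1) < κ * l := by
      rw [div_lt_iff₀ hκ0] at hlF
      linarith
    have h8 : Real.exp (-(2 * M1)) * Real.exp (2 * M1) = 1 := by
      rw [← Real.exp_add]
      simp
    have h9 : 4 * K0 < κ * l * Real.exp (-(2 * M1)) := by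
      have := mul_lt_mul_of_pos_right h7 (Real.exp_pos (-(2 * M1)))
      calc 4 * K0 = 4 * K0 * (Real.exp (-(2 * M1)) * Real.exp (2 * M1)) := by
            rw [h8, mul_one]
        _ = 4 * K0 * Real.exp (2 * M1) * Real.exp (-(2 * M1)) := by ring
        _ < κ * l * Real.exp (-(2 * M1)) := this
    have h10 : κ / (2 * l ^ 4) * (Real.exp (-(2 * M1)) / l ^ q) =
        (κ * l * Real.exp (-(2 * M1)) / 2) / l ^ (q + 5) := by
      rw [div_mul_div_comm, div_div, div_eq_div_iff (by positivity) (by positivity)]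
      ring
    rw [h10]
    apply div_lt_div_of_pos_right _ (by positivity)
    linarith
  -- second term
  have t2 : Real.exp (-(m' / l * (2 * ((l * s : ℕ) : ℝ) - 2))) < κ / (2 * l ^ 4) * E1 := by
    have hm0 : 0 < m' := hM0.trans hm'
    have h1 : -(m' / l * (2 * ((l * s : ℕ) : ℝ) - 2)) =
        2 * m' / l + (-(2 * s * M1) + -(2 * s * d)) := by
      rw [hd]
      push_cast
      field_simp
      ring
    have h2 : Real.exp (2 * m' / l) ≤ Real.exp (2 * m') := by
      apply Real.exp_le_exp.2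
      exact div_le_self (by linarith) hl1
    have h3 : Real.exp (-(2 * s * d)) ≤ 1 / l ^ 6 := by
      have h4 : (1 : ℝ) / l ^ 6 = Real.exp (-(6 * L)) := by
        rw [Real.exp_neg, ← hlexp 6]
        norm_num
      rw [h4]
      apply Real.exp_le_exp.2
      rw [div_le_iff₀ hd0] at hs2
      linarith
    rw [h1, Real.exp_add, Real.exp_add, ← hE1]
    have h5 : 4 * Real.exp (2 * m') ≤ κ * l := by
      rw [div_le_iff₀ hκ0] at hlE
      linarith
    calc Real.exp (2 * m' / l) * (E1 * Real.exp (-(2 * s * d)))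
        ≤ Real.exp (2 * m') * (E1 * (1 / l ^ 6)) := by gcongr
      _ ≤ (κ * l / 4) * (E1 * (1 / l ^ 6)) := by
          apply mul_le_mul_of_nonneg_right _ (by positivity)
          linarith
      _ = κ / (2 * l ^ 4) * E1 * (1 / (2 * l)) := by
          field_simp
          ring
      _ < κ / (2 * l ^ 4) * E1 * 1 := by
          apply mul_lt_mul_of_pos_left _ (by positivity)
          rw [div_lt_one (by positivity)]
          linarith
      _ = κ / (2 * l ^ 4) * E1 := mul_one _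
  -- the right-hand side
  have t3 : κ / l ^ 4 * E1 ≤ N * c ^ 2 * l ^ 2 * a ^ 2 / (32 * Real.sinh ω) *
      Real.exp (-(ω * (2 * (l * s) : ℕ))) := by
    have hsh0 : 0 < Real.sinh ω := Real.sinh_pos_iff.2 hω0
    have hω1 : ω ≤ 1 := hωle.trans (by rw [div_le_one hl0]; exact hlM)
    have hsh : Real.sinh ω ≤ 3 := by
      rw [Real.sinh_eq]
      have h1 : Real.exp ω ≤ Real.exp 1 := Real.exp_le_exp.2 hω1
      have h2 := Real.exp_one_lt_d9
      have h3 := Real.exp_pos (-ω)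
      linarith
    have h1 : κ / l ^ 4 ≤ N * c ^ 2 * l ^ 2 * a ^ 2 / (32 * Real.sinh ω) := by
      calc κ / l ^ 4 = N * 1 ^ 2 * l ^ 2 * a ^ 2 / (32 * 3) := by
            rw [hκ, ha]
            field_simp
            ring
        _ ≤ N * c ^ 2 * l ^ 2 * a ^ 2 / (32 * Real.sinh ω) := by gcongr
    have h2 : E1 ≤ Real.exp (-(ω * (2 * (l * s) : ℕ))) := by
      rw [hE1]
      apply Real.exp_le_exp.2
      push_cast
      rw [le_div_iff₀ hl0] at hωle
      have hs0 : (0 : ℝ) ≤ s := Nat.cast_nonneg _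
      have h5 : ω * l * (2 * s) ≤ M1 * (2 * s) := mul_le_mul_of_nonneg_right hωle (by linarith)
      linarith
    exact mul_le_mul h1 h2 hE10.le (by positivity)
  have t4 : κ / l ^ 4 * E1 = κ / (2 * l ^ 4) * E1 + κ / (2 * l ^ 4) * E1 := by
    field_simp
    ring
  linarith

end Run7.h182.QU
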